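import Pool.Agent.Helper20.NP.Stmts
import Pool.Agent.Helper24.DN.GRF

/-! # Module GEN: generators of an elementary abelian extension -/

set_option autoImplicit false

namespace Pool.Agent.Helper20.NP

open Pool.Agent.Helper21.DN

universe u

/-- in a group of prime order a ramification function is constant off the identity -/
theorem gen_const (p : ℕ) [Fact p.Prime] {Q : Type u} [Group Q] [Fintype Q] (f : Q → ℕ)
    (hf : RF f) (hQ : Nat.card Q = p) (g h : Q) (hg : g ≠ 1) (hh : h ≠ 1) : f g ≤ f h := by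
  have hp : p.Prime := Fact.out
  have hord : orderOf g = p := by
    have h1 : orderOf g ∣ p := by
      rw [← hQ]
      exact orderOf_dvd_natCard g
    rcases (Nat.dvd_prime hp).mp h1 with h2 | h2
    · exact absurd (orderOf_eq_one_iff.mp h2) hg
    · exact h2
  have hz : h ∈ Subgroup.zpowers g := by
    have h1 : Subgroup.zpowers g = ⊤ := by
      apply Subgroup.eq_top_of_card_eq
      rw [Nat.card_zpowers, hord, hQ]
    rw [h1]
    trivial
  obtain ⟨n, hn⟩ : ∃ n : ℕ, g ^ n = h := by
    have h1 : h ∈ Submonoid.powers g := mem_powers_iff_mem_zpowers.mpr hz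
    exact h1
  have hpow : ∀ i : ℕ, g ^ i ≠ 1 → f g ≤ f (g ^ i) := by
    intro i
    induction i using Nat.strong_induction_on with
    | _ i ih =>
      intro hi
      rcases Nat.lt_or_ge i p with hip | hip
      · rcases Nat.eq_zero_or_pos i with h0 | h0
        · rw [h0, pow_zero] at hi
          exact absurd rfl hi
        obtain ⟨j, rfl⟩ : ∃ j, i = j + 1 := ⟨i - 1, by omega⟩
        rcases Nat.eq_zero_or_pos j with hj | hj
        · rw [hj, zero_add, pow_one]
        · have hj1 : g ^ j ≠ 1 := by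
            intro h1
            have h2 := orderOf_dvd_of_pow_eq_one h1
            rw [hord] at h2
            have := Nat.le_of_dvd hj h2
            omega
          have h3 := hf.mul (g ^ j) g hj1 hg (by rw [← pow_succ]; exact hi)
          rw [← pow_succ] at h3
          have h4 := ih j (by omega) hj1
          rw [min_eq_right h4] at h3
          exact h3
      · have h1 : g ^ i = g ^ (i - p) := by
          conv_lhs => rw [show i = (i - p) + p by omega]
          rw [pow_add, ← hord, pow_orderOf_eq_one, mul_one]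
        rw [h1] at hi ⊢
        exact ih (i - p) (by have := hp.pos; omega) hi
  rw [← hn]
  exact hpow n (by rw [hn]; exact hh)

/-- the conductor of a ramification function on a group of prime order -/
theorem gen_cond (p : ℕ) [Fact p.Prime] {Q : Type u} [Group Q] [Fintype Q] (f : Q → ℕ)
    (hf : RF f) (hQ : Nat.card Q = p) (g : Q) (hg : g ≠ 1) : cond f = (f g : ℝ) := by
  classical
  have hp : p.Prime := Fact.out
  have hc : Fintype.card Q = p := by rw [← Nat.card_eq_fintype_card, hQ]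
  have hall : ∀ h : Q, h ≠ 1 → f h = f g := fun h hh =>
    le_antisymm (gen_const p f hf hQ h g hh hg) (gen_const p f hf hQ g h hg hh)
  have h1 : S1 f = (p - 1) * f g := by
    unfold S1
    rw [Finset.sum_congr rfl (g := fun _ => f g)
      (fun x hx => hall x (Finset.mem_filter.mp hx).2), Finset.sum_const, smul_eq_mul]
    congr 1
    have h2 : (Finset.univ.filter (fun g : Q => g ≠ 1)) = Finset.univ.erase 1 := by
      ext x
      simp
    rw [h2, Finset.card_erase_of_mem (Finset.mem_univ _), Finset.card_univ, hc]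
  have h2 : x0 f = f g := by
    unfold x0
    apply le_antisymm
    · apply Finset.sup_le
      intro x hx
      exact (hall x (Finset.mem_filter.mp hx).2).le
    · exact Finset.le_sup (f := f) (Finset.mem_filter.mpr ⟨Finset.mem_univ _, hg⟩)
  unfold Pool.Agent.Helper21.DN.cond
  rw [h1, h2, hc]
  have hp1 : ((p - 1 : ℕ) : ℝ) = (p : ℝ) - 1 := by
    rw [Nat.cast_sub hp.one_le, Nat.cast_one]
  have hp0 : (p : ℝ) ≠ 0 := by exact_mod_cast hp.ne_zero
  rw [Nat.cast_mul, hp1]
  field_simp
  ring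

/-- the value of `phi` at the last break -/
theorem gen_phi {Q : Type u} [Group Q] [Fintype Q] (f : Q → ℕ) :
    phi f (x0 f : ℝ) = ((S1 f : ℝ) + (x0 f : ℝ)) / (Fintype.card Q : ℝ) := by
  classical
  unfold phi
  congr 1
  rw [add_comm]
  congr 1
  unfold S1
  rw [Nat.cast_sum]
  refine Finset.sum_congr rfl (fun x hx => ?_)
  apply min_eq_left
  have h1 : f x ≤ x0 f := by
    unfold x0
    exact Finset.le_sup (f := f) hx
  exact_mod_cast h1

theorem st_GEN (hAS1 : ST_AS1.{u}) (hHBF : ST_HBF.{u}) (hPHM : ST_PHM.{u}) (hRFV : ST_RFV.{u}) :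
    ST_GEN.{u} := by
  classical
  intro p _ k K E _ _ _ _ _ _ _ _ κ v hR r φ
  have hp : p.Prime := Fact.out
  have hcard : Nat.card (E ≃ₐ[K] E) = p ^ (r + 1) := by
    rw [Nat.card_congr φ.toEquiv, Nat.card_congr (Multiplicative.toAdd), Nat.card_eq_fintype_card,
      Fintype.card_fun, ZMod.card, Fintype.card_fin]
  have hpG : IsPGroup p (E ≃ₐ[K] E) := IsPGroup.of_card hcard
  have hfc : (Fintype.card (E ≃ₐ[K] E) : ℝ) = ((p ^ (r + 1) : ℕ) : ℝ) := by
    rw [← Nat.card_eq_fintype_card, hcard]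
  have hcpos : (0 : ℝ) < ((p ^ (r + 1) : ℕ) : ℝ) := by
    exact_mod_cast pow_pos hp.pos _
  have hmono : ∀ a b : ℝ, 0 ≤ a → a ≤ b →
      phi (fun σ : E ≃ₐ[K] E => s v σ) a ≤ phi (fun σ : E ≃ₐ[K] E => s v σ) b := by
    intro a b ha hab
    rcases eq_or_lt_of_le hab with h | h
    · rw [h]
    · exact (hPHM _ _ a b ha h).le
  have hmain : ∀ j : Fin (r + 1), ∃ (w : E) (α : K) (m : ℕ),
      (∀ (σ : E ≃ₐ[K] E), σ w = w + (((φ σ).toAdd j).val : E)) ∧
      (w ^ p - w = algebraMap K E α) ∧
      (v w = ((-((p ^ r * m : ℕ) : ℤ) : ℤ) : WithTop ℤ)) ∧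
      (1 ≤ m ∧ ¬ p ∣ m) ∧
      (p ^ (r + 1) * m ≤
        S1 (fun σ : E ≃ₐ[K] E => s v σ) + x0 (fun σ : E ≃ₐ[K] E => s v σ)) ∧
      ∀ (σ : E ≃ₐ[K] E), s v σ = x0 (fun σ : E ≃ₐ[K] E => s v σ) → (φ σ).toAdd j ≠ 0 →
        p ^ (r + 1) * m =
          S1 (fun σ : E ≃ₐ[K] E => s v σ) + x0 (fun σ : E ≃ₐ[K] E => s v σ) := by
    intro j
    let ψ : (E ≃ₐ[K] E) →* Multiplicative (ZMod p) :=
      { toFun := fun σ => Multiplicative.ofAdd ((φ σ).toAdd j)
        map_one' := by rw [map_one]; rfl
        map_mul' := fun a b => by rw [map_mul]; rfl }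
    obtain ⟨H, hH⟩ : ∃ H, H = ψ.ker := ⟨_, rfl⟩
    have hmemH : ∀ σ, σ ∈ H ↔ (φ σ).toAdd j = 0 := by
      intro σ
      rw [hH, MonoidHom.mem_ker]
      exact Iff.rfl
    have hHn : H.Normal := by rw [hH]; exact ψ.normal_ker
    obtain ⟨σj, hσj⟩ : ∃ σj : E ≃ₐ[K] E, φ σj = Multiplicative.ofAdd (Pi.single j 1) :=
      ⟨φ.symm _, MulEquiv.apply_symm_apply _ _⟩
    have hσjval : (φ σj).toAdd j = 1 := by rw [hσj]; simp
    have hψs : Function.Surjective ψ := by
      intro c
      refine ⟨φ.symm (Multiplicative.ofAdd (Pi.single j c.toAdd)), ?_⟩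
      change Multiplicative.ofAdd ((φ (φ.symm _)).toAdd j) = c
      rw [MulEquiv.apply_symm_apply]
      simp
    have hidx : H.index = p := by
      rw [hH, Subgroup.index_ker, MonoidHom.range_eq_top.mpr hψs]
      rw [Nat.card_congr (Subgroup.topEquiv).toEquiv, Nat.card_congr (Multiplicative.toAdd),
        Nat.card_eq_fintype_card, ZMod.card]
    have hcH : Nat.card H = p ^ r := by
      have h1 := H.card_mul_index
      rw [hidx, hcard, pow_succ] at h1
      exact Nat.eq_of_mul_eq_mul_right hp.pos h1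
    obtain ⟨F, hF⟩ : ∃ F, F = IntermediateField.fixedField H := ⟨_, rfl⟩
    have hFn : Normal K F := by
      rw [hF]
      infer_instance
    have hfix : F.fixingSubgroup = H := by
      rw [hF, IntermediateField.fixingSubgroup_fixedField]
    have hEF : Module.finrank F E = p ^ r := by
      rw [hF, IntermediateField.finrank_fixedField_eq_card, hcH]
    have hKF : Module.finrank K F = p := by
      have h1 := Module.finrank_mul_finrank K F E
      rw [hEF, ← IsGalois.card_aut_eq_finrank K E, hcard, pow_succ'] at h1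
      exact Nat.eq_of_mul_eq_mul_right (pow_pos hp.pos r) h1
    obtain ⟨vF, t1, t2⟩ := hR.sub F
    have hRF := grf_quot κ v hR F vF t1 t2
    have hσjH : σj ∉ H := by
      rw [hmemH, hσjval]
      exact one_ne_zero
    have hσ' : σj.restrictNormal F ≠ 1 := by
      intro h1
      apply hσjH
      rw [← hfix, IntermediateField.mem_fixingSubgroup_iff]
      intro x hx
      have h2 := AlgEquiv.restrictNormal_commutes σj F ⟨x, hx⟩
      rw [h1] at h2
      exact h2.symm
    have hsep : Algebra.IsSeparable K F := Algebra.isSeparable_tower_bot_of_isSeparable K F E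
    have hgal : IsGalois K F := isGalois_iff.mpr ⟨hsep, hFn⟩
    obtain ⟨w, α, m, hm1, hm2, hw1, hw2, hw3, hw4⟩ := hAS1 p k K F κ vF hRF hKF
      (σj.restrictNormal F) hσ'
    have hw1' : σj (w : E) = (w : E) + 1 := by
      have h2 := AlgEquiv.restrictNormal_commutes σj F w
      rw [hw1] at h2
      exact h2.symm
    have hpow : ∀ n : ℕ, (σj ^ n) (w : E) = (w : E) + (n : E) := by
      intro n
      induction n with
      | zero => rw [pow_zero, Nat.cast_zero, add_zero]; rfl
      | succ n ih =>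
        rw [pow_succ']
        change σj ((σj ^ n) (w : E)) = _
        rw [ih, map_add, map_natCast, hw1']
        push_cast
        ring
    have hfixw : ∀ h ∈ H, h (w : E) = (w : E) := by
      intro h hh
      rw [← hfix, IntermediateField.mem_fixingSubgroup_iff] at hh
      exact hh _ w.2
    have hcF : Nat.card (F ≃ₐ[K] F) = p := by
      rw [IsGalois.card_aut_eq_finrank, hKF]
    have hpF : IsPGroup p (F ≃ₐ[K] F) := IsPGroup.of_card (n := 1) (by rw [hcF, pow_one])
    have hRFF := hRFV p k K F κ vF hRF hpF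
    have hcondF := gen_cond p (fun τ : F ≃ₐ[K] F => s vF τ) hRFF hcF _ hσ'
    rw [hw4] at hcondF
    obtain ⟨hb1, σ1, hb2, hb3⟩ := hHBF p k K E κ v hR hpG F vF t1 t2
      ⟨σj, by rw [hfix]; exact hσjH⟩
    rw [hcondF] at hb1 hb3
    have hx0 : phi (fun σ : E ≃ₐ[K] E => s v σ) (x0 (fun σ : E ≃ₐ[K] E => s v σ) : ℝ) =
        ((S1 (fun σ : E ≃ₐ[K] E => s v σ) : ℝ) + (x0 (fun σ : E ≃ₐ[K] E => s v σ) : ℝ)) /
          ((p ^ (r + 1) : ℕ) : ℝ) := by
      rw [gen_phi, hfc]
    have hle : p ^ (r + 1) * m ≤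
        S1 (fun σ : E ≃ₐ[K] E => s v σ) + x0 (fun σ : E ≃ₐ[K] E => s v σ) := by
      have h1 : σ1 ≠ 1 := by
        intro h
        apply hb2
        rw [h]
        exact Subgroup.one_mem _
      have h2 : s v σ1 ≤ x0 (fun σ : E ≃ₐ[K] E => s v σ) := by
        unfold x0
        exact Finset.le_sup (f := fun σ : E ≃ₐ[K] E => s v σ)
          (Finset.mem_filter.mpr ⟨Finset.mem_univ _, h1⟩)
      have h3 := hmono (s v σ1) (x0 (fun σ : E ≃ₐ[K] E => s v σ)) (Nat.cast_nonneg _)
        (by exact_mod_cast h2)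
      rw [hb3, hx0, le_div_iff₀ hcpos] at h3
      have h4 : ((p ^ (r + 1) * m : ℕ) : ℝ) ≤ ((S1 (fun σ : E ≃ₐ[K] E => s v σ) +
          x0 (fun σ : E ≃ₐ[K] E => s v σ) : ℕ) : ℝ) := by
        rw [Nat.cast_mul, Nat.cast_add, mul_comm]
        exact h3
      exact_mod_cast h4
    refine ⟨(w : E), α, m, ?_, ?_, ?_, ⟨hm1, hm2⟩, hle, ?_⟩
    · intro σ
      have h1 : (σj ^ ((φ σ).toAdd j).val)⁻¹ * σ ∈ H := by
        rw [hmemH, map_mul, map_inv, map_pow, hσj]
        change -(((φ σ).toAdd j).val • (Pi.single j 1 : Fin (r + 1) → ZMod p)) j +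
          (φ σ).toAdd j = 0
        rw [Pi.smul_apply, Pi.single_eq_same, nsmul_eq_mul, mul_one, ZMod.natCast_zmod_val,
          neg_add_cancel]
      have h2 := hfixw _ h1
      have h3 : σ (w : E) = (σj ^ ((φ σ).toAdd j).val)
          (((σj ^ ((φ σ).toAdd j).val)⁻¹ * σ) (w : E)) := by
        rw [← AlgEquiv.mul_apply, mul_inv_cancel_left]
      rw [h3, h2, hpow]
    · have h1 := congrArg (fun x : F => (x : E)) hw2
      exact h1
    · rw [t2, hw3, hEF, ← WithTop.coe_nsmul, WithTop.coe_inj]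
      push_cast
      rw [nsmul_eq_mul]
      push_cast
      ring
    · intro σ hσ1 hσ2
      have h1 : σ ∉ F.fixingSubgroup := by
        rw [hfix, hmemH]
        exact hσ2
      have h2 := hb1 σ h1
      rw [hσ1, hx0, div_le_iff₀ hcpos] at h2
      have h3 : ((S1 (fun σ : E ≃ₐ[K] E => s v σ) +
          x0 (fun σ : E ≃ₐ[K] E => s v σ) : ℕ) : ℝ) ≤ ((p ^ (r + 1) * m : ℕ) : ℝ) := by
        rw [Nat.cast_mul, Nat.cast_add, mul_comm]
        exact h2
      have h4 : S1 (fun σ : E ≃ₐ[K] E => s v σ) +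
          x0 (fun σ : E ≃ₐ[K] E => s v σ) ≤ p ^ (r + 1) * m := by exact_mod_cast h3
      exact le_antisymm hle h4
  choose w α m h1 h2 h3 h4 h5 h6 using hmain
  exact ⟨w, α, m, fun σ j => h1 j σ, h2, h3, h4, h5, fun σ j => h6 j σ⟩

end Pool.Agent.Helper20.NP
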